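import Pool.Agent.Q190.PN.Fq

/-! Job FD of project PN. -/

set_option autoImplicit false
set_option linter.unusedSectionVars false

namespace Pool.Agent.Q190.PN

open Finset Pool.Agent.Q295.PN

section

variable {ι : Type} [Fintype ι] [DecidableEq ι]

theorem wt_upd (p : ℝ) (κ : ι → Bool) (y : ι) (b : Bool) :
    wt p (Function.update κ y b) = P p b * ∏ i ∈ univ.erase y, P p (κ i) := by
  rw [wt_eq, ← Finset.mul_prod_erase univ _ (mem_univ y), Function.update_self]
  congr 1
  refine Finset.prod_congr rfl fun i hi => ?_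
  rw [Function.update_of_ne (Finset.ne_of_mem_erase hi)]

theorem flip_invol (y : ι) : Function.Involutive
    (fun κ : ι → Bool => Function.update κ y (!(κ y))) := by
  intro κ
  simp

/-- conditioning on one coordinate -/
theorem Ex_cond (p : ℝ) (G : (ι → Bool) → ℝ) (y : ι) :
    Ex p G = Ex p (fun κ => p * G (Function.update κ y true)
      + (1 - p) * G (Function.update κ y false)) := by
  have hflip : ∀ H : (ι → Bool) → ℝ, 2 * ∑ κ, H κ =
      ∑ κ, (H κ + H (Function.update κ y (!(κ y)))) := by
    intro H
    rw [Finset.sum_add_distrib, two_mul]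
    congr 1
    exact (Equiv.sum_comp (Function.Involutive.toPerm _ (flip_invol y)) H).symm
  have h2 : 2 * Ex p G = 2 * Ex p (fun κ => p * G (Function.update κ y true)
      + (1 - p) * G (Function.update κ y false)) := by
    unfold Ex
    rw [hflip, hflip]
    refine Finset.sum_congr rfl fun κ _ => ?_
    have hw : wt p κ = P p (κ y) * ∏ i ∈ univ.erase y, P p (κ i) := by
      rw [← wt_upd, Function.update_eq_self]
    rw [hw, wt_upd]
    simp only [Function.update_idem]
    cases hy : κ y
    · have e1 : Function.update κ y false = κ := by rw [← hy, Function.update_eq_self]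
      simp only [Bool.not_false, e1, P]
      simp
      ring
    · have e1 : Function.update κ y true = κ := by rw [← hy, Function.update_eq_self]
      simp only [Bool.not_true, e1, P]
      simp
      ring
  linarith

theorem prod_upd (p : ℝ) (T : Finset ι) {y : ι} (hy : y ∉ T) (κ : ι → Bool) (b : Bool) :
    ∏ i ∈ T, e p (Function.update κ y b i) = ∏ i ∈ T, e p (κ i) := by
  refine Finset.prod_congr rfl fun i hi => ?_
  have hne : i ≠ y := by rintro rfl; exact hy hi
  rw [Function.update_of_ne hne]

theorem fh_def (p : ℝ) (f : (ι → Bool) → ℝ) (T : Finset ι) :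
    fh p f T = Ex p (fun κ => f κ * ∏ i ∈ T, e p (κ i)) /
      (Real.sqrt (p * (1 - p))) ^ T.card := rfl

end

theorem fd : S_FD := by
  intro ι _ _ p f y T h0 h1
  have hpq : 0 < p * (1 - p) := by nlinarith
  have hs : Real.sqrt (p * (1 - p)) * Real.sqrt (p * (1 - p)) = p * (1 - p) :=
    Real.mul_self_sqrt hpq.le
  have hs0 : Real.sqrt (p * (1 - p)) ≠ 0 := (Real.sqrt_pos.2 hpq).ne'
  constructor
  · intro hy
    rw [fh_def, fh_def, Finset.card_insert_of_notMem hy]
    have h2 : Ex p (fun κ => f κ * ∏ i ∈ insert y T, e p (κ i)) =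
        (p * (1 - p)) * Ex p (fun κ => DD f y κ * ∏ i ∈ T, e p (κ i)) := by
      rw [Ex_cond p _ y]
      unfold Ex
      rw [Finset.mul_sum]
      refine Finset.sum_congr rfl fun κ _ => ?_
      simp only [Finset.prod_insert hy, prod_upd p T hy, Function.update_self, DD]
      simp only [e]
      simp
      ring
    rw [h2]
    generalize hr : Real.sqrt (p * (1 - p)) = r at hs hs0
    rw [← hs, pow_succ]
    field_simp
  · intro hy
    rw [fh_def]
    have h2 : Ex p (fun κ => DD f y κ * ∏ i ∈ T, e p (κ i)) = 0 := by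
      rw [Ex_cond p _ y]
      unfold Ex
      refine Finset.sum_eq_zero fun κ _ => ?_
      have e1 : ∀ b, ∏ i ∈ T, e p (Function.update κ y b i) =
          e p b * ∏ i ∈ T.erase y, e p (κ i) := by
        intro b
        rw [← Finset.mul_prod_erase T _ hy, Function.update_self, prod_upd p _ (by simp)]
      simp only [e1, DD, Function.update_idem]
      simp only [e]
      simp
      right
      ring
    rw [h2, zero_div]

theorem fs : S_FS := by
  intro hFQ ι _ _ p f s h0 h1
  unfold SS
  have h2 := (hFQ ι p f h0 h1).1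
  simp only [h2]
  have h3 : ∀ V : Finset ι, s ^ V.card * (1 - s) ^ (Fintype.card ι - V.card) *
      ∑ T ∈ V.powerset, fh p f T ^ 2 = ∑ T : Finset ι, fh p f T ^ 2 *
        (if T ⊆ V then s ^ V.card * (1 - s) ^ (Fintype.card ι - V.card) else 0) := by
    intro V
    have : V.powerset = (univ : Finset (Finset ι)).filter (fun T => T ⊆ V) := by
      ext T; simp
    rw [this, Finset.sum_filter, Finset.mul_sum]
    refine Finset.sum_congr rfl fun T _ => ?_
    split_ifs
    · ring
    · ring
  rw [Finset.sum_congr rfl fun V _ => h3 V, Finset.sum_comm]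
  refine Finset.sum_congr rfl fun T _ => ?_
  rw [← Finset.mul_sum]
  congr 1
  have h4 := Finset.prod_add (fun _ : ι => s) (fun i : ι => if i ∈ T then 0 else 1 - s) univ
  have h5 : ∏ i : ι, (s + (if i ∈ T then 0 else 1 - s)) = s ^ T.card := by
    have : ∀ i : ι, s + (if i ∈ T then 0 else 1 - s) = if i ∈ T then s else 1 := by
      intro i; split_ifs <;> ring
    rw [Finset.prod_congr rfl fun i _ => this i, Finset.prod_ite_mem, univ_inter,
      Finset.prod_const]
  rw [← h5, h4, powerset_univ]
  refine Finset.sum_congr rfl fun V _ => ?_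
  rw [Finset.prod_const]
  by_cases h : T ⊆ V
  · rw [if_pos h]
    congr 1
    have : ∀ i ∈ univ \ V, (if i ∈ T then (0 : ℝ) else 1 - s) = 1 - s := by
      intro i hi
      rw [if_neg (fun hiT => (Finset.mem_sdiff.1 hi).2 (h hiT))]
    rw [Finset.prod_congr rfl this, Finset.prod_const, Finset.card_sdiff_of_subset
      (subset_univ _), Finset.card_univ]
  · rw [if_neg h]
    obtain ⟨i, hi, hi2⟩ := Finset.not_subset.1 h
    have hz : ∏ i ∈ univ \ V, (if i ∈ T then (0 : ℝ) else 1 - s) = 0 :=
      Finset.prod_eq_zero (mem_sdiff.2 ⟨mem_univ i, hi2⟩) (if_pos hi)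
    rw [hz, mul_zero]

end Pool.Agent.Q190.PN
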