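import Pool.Agent.Q295.PN.StmA

/-! Jobs FQ, FD, FS of project PN. -/

set_option autoImplicit false
set_option linter.unusedSectionVars false

namespace Pool.Agent.Q190.PN

open Finset Pool.Agent.Q295.PN

section

variable {ι : Type} [Fintype ι] [DecidableEq ι]

/-- the weight of a value -/
noncomputable def P (p : ℝ) (b : Bool) : ℝ := if b = true then p else 1 - p

/-- the centred value -/
noncomputable def e (p : ℝ) (b : Bool) : ℝ := (if b = true then (1 : ℝ) else 0) - p

theorem P_pos {p : ℝ} (h0 : 0 < p) (h1 : p < 1) (b : Bool) : 0 < P p b := by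
  unfold P; split_ifs <;> linarith

theorem sum_P (p : ℝ) : ∑ b, P p b = 1 := by simp [P]

theorem sum_prod (F : ι → Bool → ℝ) : ∑ κ : ι → Bool, ∏ i, F i (κ i) = ∏ i, ∑ b, F i b := by
  rw [Finset.prod_univ_sum, Fintype.piFinset_univ]

theorem wt_eq (p : ℝ) (κ : ι → Bool) : wt p κ = ∏ i, P p (κ i) := rfl

theorem sum_wt (p : ℝ) : ∑ κ : ι → Bool, wt p κ = 1 := by
  simp only [wt_eq]
  rw [sum_prod (fun _ b => P p b)]
  simp only [sum_P, Finset.prod_const_one]

theorem kern {p : ℝ} (h0 : 0 < p) (h1 : p < 1) (b b' : Bool) :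
    1 + e p b' * e p b / (p * (1 - p)) = (if b' = b then (P p b)⁻¹ else 0) := by
  have h2 : (1 : ℝ) - p ≠ 0 := by linarith
  have h3 : p ≠ 0 := h0.ne'
  cases b <;> cases b' <;> simp [e, P] <;> field_simp <;> ring

/-- The average as a sum against a product kernel. -/
theorem Av_eq {p : ℝ} (h0 : 0 < p) (h1 : p < 1) (f : (ι → Bool) → ℝ) (V : Finset ι)
    (κ : ι → Bool) : Av p V f κ = ∑ κ', wt p κ' * f κ' *
      ∏ i ∈ V, (1 + e p (κ' i) * e p (κ i) / (p * (1 - p))) := by
  unfold Av Ex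
  have hk : ∀ κ' : ι → Bool, wt p κ' * f κ' *
      ∏ i ∈ V, (1 + e p (κ' i) * e p (κ i) / (p * (1 - p))) =
      ∑ κ'' : ι → Bool, if mix V κ κ'' = κ' then wt p κ'' * f κ' else 0 := by
    intro κ'
    have e1 : ∀ κ'' : ι → Bool, (if mix V κ κ'' = κ' then wt p κ'' * f κ' else 0) =
        f κ' * ∏ i, (P p (κ'' i) * if (if i ∈ V then κ i else κ'' i) = κ' i then 1 else 0) := by
      intro κ''
      rw [Finset.prod_mul_distrib, ← wt_eq]
      by_cases h : mix V κ κ'' = κ'
      · rw [if_pos h]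
        have : ∀ i, (if i ∈ V then κ i else κ'' i) = κ' i := fun i => congrFun h i
        simp [this]; ring
      · rw [if_neg h]
        have : ∃ i, (if i ∈ V then κ i else κ'' i) ≠ κ' i := by
          by_contra hcon
          push Not at hcon
          exact h (funext hcon)
        obtain ⟨i, hi⟩ := this
        rw [Finset.prod_eq_zero (mem_univ i) (if_neg hi)]
        ring
    simp only [e1]
    rw [← Finset.mul_sum, sum_prod (fun i b => P p b *
      if (if i ∈ V then κ i else b) = κ' i then 1 else 0), wt_eq]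
    have e2 : ∏ i ∈ V, (1 + e p (κ' i) * e p (κ i) / (p * (1 - p))) =
        ∏ i, (if i ∈ V then (1 + e p (κ' i) * e p (κ i) / (p * (1 - p))) else 1) := by
      rw [Finset.prod_ite_mem, univ_inter]
    rw [e2, mul_comm (∏ i, P p (κ' i)) (f κ'), mul_assoc, ← Finset.prod_mul_distrib]
    congr 1
    refine Finset.prod_congr rfl fun i _ => ?_
    by_cases hi : i ∈ V
    · simp only [if_pos hi, kern h0 h1]
      rw [← Finset.sum_mul, sum_P, one_mul]
      by_cases h : κ' i = κ i
      · rw [if_pos h, if_pos h.symm, h, mul_inv_cancel₀ (P_pos h0 h1 _).ne']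
      · rw [if_neg h, if_neg (fun h' => h h'.symm), mul_zero]
    · simp only [if_neg hi, mul_one, mul_ite, mul_zero]
      rw [Finset.sum_ite_eq' univ (κ' i) (fun b => P p b), if_pos (mem_univ _)]
  rw [Finset.sum_congr rfl fun κ' _ => hk κ', Finset.sum_comm]
  refine Finset.sum_congr rfl fun κ'' _ => ?_
  rw [Finset.sum_ite_eq univ (mix V κ κ'') (fun κ' => wt p κ'' * f κ'), if_pos (mem_univ _)]

/-- the character -/
noncomputable def ch (p : ℝ) (T : Finset ι) (κ : ι → Bool) : ℝ :=
  ∏ i ∈ T, (e p (κ i) / Real.sqrt (p * (1 - p)))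

theorem fh_eq (p : ℝ) (f : (ι → Bool) → ℝ) (T : Finset ι) :
    fh p f T = ∑ κ, wt p κ * f κ * ch p T κ := by
  unfold fh Ex ch
  rw [Finset.sum_div]
  refine Finset.sum_congr rfl fun κ _ => ?_
  rw [Finset.prod_div_distrib, Finset.prod_const]
  unfold e
  ring

theorem Av_ch {p : ℝ} (h0 : 0 < p) (h1 : p < 1) (f : (ι → Bool) → ℝ) (V : Finset ι)
    (κ : ι → Bool) : Av p V f κ = ∑ T ∈ V.powerset, fh p f T * ch p T κ := by
  rw [Av_eq h0 h1]
  simp only [fh_eq, Finset.sum_mul]
  rw [Finset.sum_comm]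
  refine Finset.sum_congr rfl fun κ' _ => ?_
  rw [Finset.prod_one_add, Finset.mul_sum]
  refine Finset.sum_congr rfl fun T _ => ?_
  have hs : Real.sqrt (p * (1 - p)) * Real.sqrt (p * (1 - p)) = p * (1 - p) :=
    Real.mul_self_sqrt (by nlinarith)
  have : ∏ i ∈ T, e p (κ' i) * e p (κ i) / (p * (1 - p)) = ch p T κ' * ch p T κ := by
    unfold ch
    rw [← Finset.prod_mul_distrib]
    refine Finset.prod_congr rfl fun i _ => ?_
    rw [div_mul_div_comm, hs]
  rw [this]; ring

theorem orth {p : ℝ} (h0 : 0 < p) (h1 : p < 1) (T S : Finset ι) :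
    ∑ κ, wt p κ * (ch p T κ * ch p S κ) = if T = S then 1 else 0 := by
  have hpq : 0 < p * (1 - p) := by nlinarith
  have hs : Real.sqrt (p * (1 - p)) * Real.sqrt (p * (1 - p)) = p * (1 - p) :=
    Real.mul_self_sqrt hpq.le
  have hs0 : Real.sqrt (p * (1 - p)) ≠ 0 := (Real.sqrt_pos.2 hpq).ne'
  have e1 : ∀ (T : Finset ι) (κ : ι → Bool), ch p T κ =
      ∏ i, (if i ∈ T then e p (κ i) / Real.sqrt (p * (1 - p)) else 1) := by
    intro T κ
    unfold ch
    rw [Finset.prod_ite_mem, univ_inter]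
  simp only [wt_eq, e1, ← Finset.prod_mul_distrib]
  rw [sum_prod (fun i b => P p b * ((if i ∈ T then e p b / Real.sqrt (p * (1 - p)) else 1) *
    (if i ∈ S then e p b / Real.sqrt (p * (1 - p)) else 1)))]
  have e2 : ∀ i, ∑ b, P p b * ((if i ∈ T then e p b / Real.sqrt (p * (1 - p)) else 1) *
      (if i ∈ S then e p b / Real.sqrt (p * (1 - p)) else 1)) =
      if (i ∈ T ↔ i ∈ S) then 1 else 0 := by
    intro i
    have h2 : (1 : ℝ) - p ≠ 0 := by linarith
    have h3 : p ≠ 0 := h0.ne'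
    by_cases hT : i ∈ T <;> by_cases hS : i ∈ S
    · simp only [hT, hS, if_true, div_mul_div_comm, hs]
      simp [P, e]
      field_simp
      ring
    · simp [hT, hS, P, e]
      field_simp
      ring
    · simp [hT, hS, P, e]
      field_simp
      ring
    · simp [hT, hS, P]
  rw [Finset.prod_congr rfl fun i _ => e2 i]
  by_cases h : T = S
  · subst h; simp
  · rw [if_neg h]
    have : ∃ i, ¬ (i ∈ T ↔ i ∈ S) := by
      by_contra hcon
      push Not at hcon
      exact h (Finset.ext hcon)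
    obtain ⟨i, hi⟩ := this
    exact Finset.prod_eq_zero (mem_univ i) (if_neg hi)

theorem QQ_eq {p : ℝ} (h0 : 0 < p) (h1 : p < 1) (f : (ι → Bool) → ℝ) (V : Finset ι) :
    QQ p f V = ∑ T ∈ V.powerset, (fh p f T) ^ 2 := by
  unfold QQ
  rw [Ex]
  simp only [Av_ch h0 h1, sq, Finset.sum_mul_sum]
  simp only [Finset.mul_sum]
  rw [Finset.sum_comm]
  refine Finset.sum_congr rfl fun T hT => ?_
  rw [Finset.sum_comm]
  have : ∀ S ∈ V.powerset, ∑ κ, wt p κ * (fh p f T * ch p T κ * (fh p f S * ch p S κ)) =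
      if T = S then fh p f T * fh p f S else 0 := by
    intro S _
    have e3 : ∑ κ, wt p κ * (fh p f T * ch p T κ * (fh p f S * ch p S κ)) =
        fh p f T * fh p f S * ∑ κ, wt p κ * (ch p T κ * ch p S κ) := by
      rw [Finset.mul_sum]
      exact Finset.sum_congr rfl fun κ _ => by ring
    rw [e3, orth h0 h1]
    split_ifs <;> simp
  rw [Finset.sum_congr rfl this, Finset.sum_ite_eq V.powerset T, if_pos hT]

end

theorem fq : S_FQ := by
  intro ι _ _ p f h0 h1
  have a1 : ∀ V : Finset ι, QQ p f V = ∑ T ∈ V.powerset, (fh p f T) ^ 2 := fun V =>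
    QQ_eq h0 h1 f V
  have a2 : QQ p f ∅ = (Ex p f) ^ 2 := by
    rw [a1, powerset_empty, sum_singleton]
    unfold fh
    simp
  have a3 : QQ p f univ = Ex p (fun κ => (f κ) ^ 2) := by
    unfold QQ Av
    congr 1
    funext κ
    have : ∀ κ', mix univ κ κ' = κ := by
      intro κ'; funext i; simp [mix]
    simp only [this]
    unfold Ex
    rw [← Finset.sum_mul, sum_wt, one_mul]
  refine ⟨a1, a2, a3, ?_⟩
  unfold Vr
  rw [← a3, ← a2, a1, a1, powerset_empty, sum_singleton, powerset_univ, Finset.filter_ne',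
    ← Finset.sum_erase_add univ _ (mem_univ ∅), add_sub_cancel_right]

end Pool.Agent.Q190.PN
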